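import Pool.Agent.H92.FC.AsmE
import Pool.Agent.H92.FC.LinRank

/-!
# First emerging cycle of the random `d`-complex process, `d ≥ 2`: spanning for almost all `n`
-/

namespace FC.OldAlmostAll

open Finset

open Classical in
/-- For every field `F` and every `d ≥ 2` there is a set `G` of naturals, missing at most
`M ^ (1 - a)` elements of each interval `[M, 2M]`, along which with probability tending to one
the first emerging cycle is the boundary of a simplex or covers all vertices. -/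
theorem result (F : Type*) [Field F] (d : ℕ) (hd : 2 ≤ d) :
    ∃ a > (0:ℝ), ∃ G : Set ℕ, (∃ M0 : ℕ, ∀ M ≥ M0,
      (((Icc M (2 * M)).filter (fun n => n ∉ G)).card : ℝ) ≤ (M : ℝ) ^ (1 - a)) ∧
      ∀ ε > (0:ℝ), ∃ n0 : ℕ, ∀ n ≥ n0, n ∈ G → FC.badFrac F d n 1 ≤ ε := by
  obtain ⟨R, hL1, hL2, hsw⟩ := FC.exists_linrank' F d
  obtain ⟨a, ha, G, ⟨M0, hM0⟩, hG⟩ := FC.main_C F d hd R ⟨hL1, hL2⟩ hsw
  refine ⟨a, ha, G, ⟨M0, fun M hM => ?_⟩, hG⟩
  refine hM0 M hM _ fun n hn => ?_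
  rw [Finset.mem_filter, Finset.mem_Icc] at hn
  exact ⟨hn.1.1, hn.1.2, hn.2⟩

end FC.OldAlmostAll
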