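import Pool.Agent.H92.FC.FinalA
import Pool.Agent.H92.FC.LinRank

/-!
# First emerging cycle of the random `d`-complex process: few vertices are missed
-/

namespace FC.OldFewMissed

/-- For every field `F` and every `d ≥ 2` there is `a > 0` such that, as `n → ∞`, with probability
tending to one the first emerging cycle is the boundary of a simplex or misses fewer than
`⌈n ^ (1 - a)⌉` vertices. -/
theorem result (F : Type*) [Field F] (d : ℕ) (hd : 2 ≤ d) :
    ∃ a > (0:ℝ), ∀ ε > (0:ℝ), ∃ n0 : ℕ, ∀ n ≥ n0,
      FC.badFrac F d n (Nat.ceil ((n : ℝ) ^ (1 - a))) ≤ ε :=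
  FC.main_A F d hd (FC.exists_linrank F d)

end FC.OldFewMissed
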